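import Pool.Agent.Helper98.EY.StmtsC

/-! # EVSLOW: geometry of the slow bonds -/

set_option autoImplicit false

namespace Pool.Agent.Helper98.EX

open Finset MeasureTheory ProbabilityTheory Filter
open scoped Topology

theorem evslow_RR_meas {Ω : Type} [MeasurableSpace Ω] {P : Measure Ω} {X : ℕ → Ω → ℝ}
    (h : IIDE P X) (N z x : ℕ) :
    Measurable (fun ω => RR (rE (EE X ω)) (mE N (EE X ω)) z x) := by
  unfold RR
  apply Finset.measurable_prod
  intro b _
  unfold mE modl lE rE EE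
  exact ((measurable_const.sub (h.meas b)).max measurable_const).div (h.meas (b - 1))

theorem evslow_vp_meas {Ω : Type} [MeasurableSpace Ω] {P : Measure Ω} {X : ℕ → Ω → ℝ}
    (h : IIDE P X) (N z x : ℕ) :
    Measurable (fun ω => vp (rE (EE X ω)) (mE N (EE X ω)) z x) := by
  unfold vp
  exact (evslow_RR_meas h N z x).div (h.meas (x + 1 - 1))

theorem evslow_vh_meas {Ω : Type} [MeasurableSpace Ω] {P : Measure Ω} {X : ℕ → Ω → ℝ}
    (h : IIDE P X) (N z x : ℕ) :
    Measurable (fun ω => vh (rE (EE X ω)) (mE N (EE X ω)) z x) := by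
  unfold vh
  exact (evslow_RR_meas h N z x).div (h.meas (z - 1))

theorem evslow_rpos {Ω : Type} [MeasurableSpace Ω] {P : Measure Ω} {X : ℕ → Ω → ℝ}
    (h : IIDE P X) (ω : Ω) (b : ℕ) : 0 < rE (EE X ω) b := (h.rng (b - 1) ω).1

theorem evslow_vpself {Ω : Type} [MeasurableSpace Ω] {X : ℕ → Ω → ℝ}
    (ω : Ω) (N b : ℕ) (hb : 1 ≤ b) :
    vp (rE (EE X ω)) (mE N (EE X ω)) (b - 1) (b - 1) = 1 / rE (EE X ω) b := by
  unfold vp RR
  have e : b - 1 + 1 = b := by omega
  rw [e]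
  simp

theorem evslow_vhself {Ω : Type} [MeasurableSpace Ω] {X : ℕ → Ω → ℝ}
    (ω : Ω) (N b : ℕ) :
    vh (rE (EE X ω)) (mE N (EE X ω)) b b = 1 / rE (EE X ω) b := by
  unfold vh RR
  simp

/-- union bound with Markov's inequality -/
theorem evslow_un {Ω ι : Type} [MeasurableSpace Ω] (P : Measure Ω) (I : Finset ι)
    (A : ι → Set Ω) (Q : ι → Prop) (T : ι → Ω → ℝ) (C t : ℝ) (ht : 0 < t)
    (hm : ∀ i, Measurable (T i))
    (hT : ∀ i, Q i → ∫⁻ ω, ENNReal.ofReal (T i ω) ∂P ≤ ENNReal.ofReal C)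
    (hA : ∀ i ∈ I, A i ⊆ {ω | Q i ∧ t ≤ T i ω}) :
    P (⋃ i ∈ I, A i) ≤ ENNReal.ofReal (I.card * (C / t)) := by
  have hone : ∀ i ∈ I, P (A i) ≤ ENNReal.ofReal (C / t) := by
    intro i hi
    by_cases hq : Q i
    · have h1 := hT i hq
      have h2 := meas_ge_le_lintegral_div (μ := P)
        (f := fun ω => ENNReal.ofReal (T i ω)) (hm i).ennreal_ofReal.aemeasurable
        (ε := ENNReal.ofReal t) (by
          rw [Ne, ENNReal.ofReal_eq_zero, not_le]; exact ht) ENNReal.ofReal_ne_top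
      rw [ENNReal.ofReal_div_of_pos ht]
      refine le_trans (le_trans (measure_mono ?_) h2) (ENNReal.div_le_div_right h1 _)
      intro ω hω
      exact ENNReal.ofReal_le_ofReal (hA i hi hω).2
    · have : A i = ∅ := by
        ext ω
        constructor
        · intro hω
          exact absurd (hA i hi hω).1 hq
        · intro hω
          exact absurd hω (Set.notMem_empty ω)
      rw [this, measure_empty]
      exact bot_le
  refine le_trans (measure_biUnion_finset_le _ _) (le_trans (Finset.sum_le_sum hone) ?_)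
  rw [Finset.sum_const, nsmul_eq_mul, ← ENNReal.ofReal_natCast,
    ← ENNReal.ofReal_mul (by positivity)]

/-- windows near slow bonds -/
theorem evslow_win {Ω : Type} [MeasurableSpace Ω] (P : Measure Ω)
    (T : ℕ → ℕ → ℕ → Ω → ℝ) (Q : ℕ → ℕ → ℕ → Prop) (C e : ℝ) (hC : 0 < C)
    (he : 0 < e) (N : ℕ) (hN : 1 ≤ N) (hL : 1 ≤ Real.log N) (hL2 : 49 * C / e ≤ Real.log N)
    (hm : ∀ b z y, Measurable (T b z y))
    (hQ : ∀ b z y, Q b z y → b < N ∧ (b : ℝ) ≤ z + 3 * Real.log N ^ 241 ∧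
      (z : ℝ) ≤ b + 3 * Real.log N ^ 241 ∧ (b : ℝ) ≤ y + 3 * Real.log N ^ 241 ∧
      (y : ℝ) ≤ b + 3 * Real.log N ^ 241)
    (hT : ∀ b z y, Q b z y →
      ∫⁻ ω, ENNReal.ofReal (T b z y ω) ∂P ≤ ENNReal.ofReal C) :
    P {ω | ∃ b z y, Q b z y ∧ N * Real.log N ^ 495 ≤ T b z y ω} ≤
      ENNReal.ofReal e := by
  set L := Real.log N with hLdef
  set K : ℕ := ⌊3 * L ^ 241⌋₊ with hK
  have hNpos : (0 : ℝ) < N := by exact_mod_cast hN
  have hLpos : 0 < L := by linarith
  have hKle : (K : ℝ) ≤ 3 * L ^ 241 := Nat.floor_le (by positivity)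
  have hfl : ∀ a c : ℕ, (a : ℝ) ≤ c + 3 * L ^ 241 → a ≤ c + K := by
    intro a c hac
    by_cases h : a ≤ c
    · omega
    · have : a - c ≤ K := by
        apply Nat.le_floor
        rw [Nat.cast_sub (by omega)]
        linarith
      omega
  set I : Finset (ℕ × ℕ × ℕ) := Finset.range N ×ˢ Finset.range (2 * K + 1) ×ˢ
    Finset.range (2 * K + 1) with hI
  have hpos : 0 < (N : ℝ) * L ^ 495 := by positivity
  have hun := evslow_un P I
    (fun i => {ω | Q i.1 (i.1 + i.2.1 - K) (i.1 + i.2.2 - K) ∧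
        N * L ^ 495 ≤ T i.1 (i.1 + i.2.1 - K) (i.1 + i.2.2 - K) ω})
    (fun i => Q i.1 (i.1 + i.2.1 - K) (i.1 + i.2.2 - K))
    (fun i ω => T i.1 (i.1 + i.2.1 - K) (i.1 + i.2.2 - K) ω) C (N * L ^ 495) hpos
    (fun i => hm _ _ _) (fun i hq => hT _ _ _ hq) (fun i _ => le_refl _)
  refine le_trans (le_trans (measure_mono ?_) hun) ?_
  · rintro ω ⟨b, z, y, hq, hω⟩
    obtain ⟨h1, h2, h3, h4, h5⟩ := hQ b z y hq
    have g2 := hfl _ _ h2
    have g3 := hfl _ _ h3
    have g4 := hfl _ _ h4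
    have g5 := hfl _ _ h5
    simp only [Set.mem_iUnion, exists_prop]
    refine ⟨(b, z + K - b, y + K - b), ?_, ?_⟩
    · simp only [hI, Finset.mem_product, Finset.mem_range]
      omega
    · have e1 : b + (z + K - b) - K = z := by omega
      have e2 : b + (y + K - b) - K = y := by omega
      simp only [e1, e2]
      exact ⟨hq, hω⟩
  · apply ENNReal.ofReal_le_ofReal
    have hcard : (I.card : ℝ) = N * (2 * (K : ℝ) + 1) ^ 2 := by
      rw [hI]
      simp only [Finset.card_product, Finset.card_range]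
      push_cast
      ring
    rw [hcard]
    have h1L : 1 ≤ L ^ 241 := one_le_pow₀ hL
    have hK1 : (2 * (K : ℝ) + 1) ^ 2 ≤ (7 * L ^ 241) ^ 2 := by
      apply pow_le_pow_left₀ (by positivity)
      linarith
    have hC' : 49 * C ≤ e * L := by
      rw [div_le_iff₀ he] at hL2
      linarith
    calc (N : ℝ) * (2 * (K : ℝ) + 1) ^ 2 * (C / (N * L ^ 495))
        ≤ (N : ℝ) * (7 * L ^ 241) ^ 2 * (C / (N * L ^ 495)) := by
          apply mul_le_mul_of_nonneg_right _ (by positivity)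
          apply mul_le_mul_of_nonneg_left hK1 hNpos.le
      _ = 49 * C / L ^ 13 := by
          field_simp
          ring
      _ ≤ 49 * C / L := by
          apply div_le_div_of_nonneg_left (by positivity) hLpos
          calc L = L ^ 1 := (pow_one L).symm
            _ ≤ L ^ 13 := pow_le_pow_right₀ hL (by norm_num)
      _ ≤ e := by
          rw [div_le_iff₀ hLpos]
          exact hC'

/-- number of integers close to a real number -/
theorem evslow_cnt (a s : ℝ) (ha : 0 ≤ a) (hs : 1 ≤ s) (S : Finset ℕ)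
    (hS : ∀ b ∈ S, |(b : ℝ) - a| < s) : (S.card : ℝ) ≤ 3 * s := by
  have hsub : S ⊆ Finset.Icc ⌈a - s⌉₊ ⌊a + s⌋₊ := by
    intro b hb
    have h := abs_lt.1 (hS b hb)
    rw [Finset.mem_Icc]
    refine ⟨Nat.ceil_le.2 (by linarith [h.1]), Nat.le_floor (by linarith [h.2])⟩
  have hc := Finset.card_le_card hsub
  rw [Nat.card_Icc] at hc
  have h1 : ((⌊a + s⌋₊ : ℕ) : ℝ) ≤ a + s := Nat.floor_le (by linarith)
  have h2 : a - s ≤ ((⌈a - s⌉₊ : ℕ) : ℝ) := Nat.le_ceil _
  by_cases h : ⌈a - s⌉₊ ≤ ⌊a + s⌋₊ + 1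
  · have h3 : (S.card : ℝ) ≤ ((⌊a + s⌋₊ + 1 - ⌈a - s⌉₊ : ℕ) : ℝ) := by exact_mod_cast hc
    rw [Nat.cast_sub h] at h3
    push_cast at h3
    linarith
  · have h3 : S.card ≤ 0 := by omega
    have h4 : S.card = 0 := by omega
    rw [h4]
    push_cast
    linarith

/-- slow bonds have a large resistance -/
theorem evslow_big {Ω : Type} [MeasurableSpace Ω] {P : Measure Ω} {X : ℕ → Ω → ℝ}
    (hX : IIDE P X) (ω : Ω) (N b : ℕ) (hL : 1 ≤ Real.log N)
    (hb : b ∈ slowB N (rE (EE X ω))) :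
    1 ≤ b ∧ b < N ∧ N / Real.log N ^ 465 ≤ 1 / rE (EE X ω) b := by
  unfold slowB at hb
  rw [Finset.mem_filter, Finset.mem_Ico] at hb
  obtain ⟨⟨h1, h2⟩, h3⟩ := hb
  refine ⟨h1, h2, ?_⟩
  have hr := evslow_rpos hX ω b
  have hLp : 0 < Real.log N ^ 465 := by positivity
  rw [div_le_div_iff₀ hLp hr]
  linarith

/-- the number of slow bonds -/
theorem evslow_card {Ω : Type} [MeasurableSpace Ω] (P : Measure Ω) (X : ℕ → Ω → ℝ)
    (hX : IIDE P X) (C e : ℝ) (hC : 0 < C) (he : 0 < e) (N : ℕ) (hN : 1 ≤ N)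
    (hL : 1 ≤ Real.log N) (hL2 : 49 * C / e ≤ Real.log N)
    (h1 : ∀ z, ∫⁻ ω, ENNReal.ofReal (vp (rE (EE X ω)) (mE N (EE X ω)) z z) ∂P ≤
      ENNReal.ofReal C) :
    P {ω | Real.log N ^ 466 < ((slowB N (rE (EE X ω))).card : ℝ)} ≤ ENNReal.ofReal e := by
  set L := Real.log N with hLdef
  have hNpos : (0 : ℝ) < N := by exact_mod_cast hN
  have hLpos : 0 < L := by linarith
  have hpos : 0 < (N : ℝ) * L := by positivity
  have hvn : ∀ b ω, 1 ≤ b → 0 ≤ vp (rE (EE X ω)) (mE N (EE X ω)) (b - 1) (b - 1) := by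
    intro b ω hb
    rw [evslow_vpself ω N b hb]
    exact (one_div_pos.2 (evslow_rpos hX ω b)).le
  have hun := evslow_un P {(0 : ℕ)}
    (fun _ => {ω | Real.log N ^ 466 < ((slowB N (rE (EE X ω))).card : ℝ)})
    (fun _ => True)
    (fun _ ω => ∑ b ∈ Finset.Ico 1 N, vp (rE (EE X ω)) (mE N (EE X ω)) (b - 1) (b - 1))
    (N * C) (N * L) hpos
    (fun _ => Finset.measurable_sum _ (fun b _ => evslow_vp_meas hX N (b - 1) (b - 1)))
    (by
      intro _ _
      have e1 : ∀ ω, ENNReal.ofReal (∑ b ∈ Finset.Ico 1 N,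
          vp (rE (EE X ω)) (mE N (EE X ω)) (b - 1) (b - 1)) = ∑ b ∈ Finset.Ico 1 N,
          ENNReal.ofReal (vp (rE (EE X ω)) (mE N (EE X ω)) (b - 1) (b - 1)) := by
        intro ω
        rw [ENNReal.ofReal_sum_of_nonneg]
        intro b hb
        exact hvn b ω (Finset.mem_Ico.1 hb).1
      simp_rw [e1]
      rw [lintegral_finsetSum _
        (fun b _ => (evslow_vp_meas hX N (b - 1) (b - 1)).ennreal_ofReal)]
      refine le_trans (Finset.sum_le_sum (fun b _ => h1 (b - 1))) ?_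
      rw [Finset.sum_const, nsmul_eq_mul, ← ENNReal.ofReal_natCast,
        ← ENNReal.ofReal_mul (by positivity)]
      apply ENNReal.ofReal_le_ofReal
      rw [Nat.card_Ico]
      apply mul_le_mul_of_nonneg_right _ hC.le
      exact_mod_cast Nat.sub_le N 1)
    (by
      intro _ _ ω hω
      refine ⟨trivial, ?_⟩
      have h2 : ∑ b ∈ slowB N (rE (EE X ω)),
          vp (rE (EE X ω)) (mE N (EE X ω)) (b - 1) (b - 1) ≤
          ∑ b ∈ Finset.Ico 1 N, vp (rE (EE X ω)) (mE N (EE X ω)) (b - 1) (b - 1) := by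
        apply Finset.sum_le_sum_of_subset_of_nonneg
        · exact Finset.filter_subset _ _
        · intro b hb _
          exact hvn b ω (Finset.mem_Ico.1 hb).1
      have h3 : ((slowB N (rE (EE X ω))).card : ℝ) * (N / L ^ 465) ≤
          ∑ b ∈ slowB N (rE (EE X ω)),
            vp (rE (EE X ω)) (mE N (EE X ω)) (b - 1) (b - 1) := by
        rw [← nsmul_eq_mul]
        apply Finset.card_nsmul_le_sum
        intro b hb
        obtain ⟨g1, g2, g3⟩ := evslow_big hX ω N b hL hb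
        rw [evslow_vpself ω N b g1]
        exact g3
      have h4 : L ^ 466 * (N / L ^ 465) ≤
          ((slowB N (rE (EE X ω))).card : ℝ) * (N / L ^ 465) :=
        mul_le_mul_of_nonneg_right (le_of_lt hω) (by positivity)
      have h5 : L ^ 466 * ((N : ℝ) / L ^ 465) = N * L := by
        field_simp
      show (N : ℝ) * L ≤ _
      linarith)
  refine le_trans (le_trans (measure_mono ?_) hun) ?_
  · intro ω hω
    simp only [Set.mem_iUnion, exists_prop]
    exact ⟨0, Finset.mem_singleton_self 0, hω⟩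
  · apply ENNReal.ofReal_le_ofReal
    rw [Finset.card_singleton]
    push_cast
    have hC' : 49 * C ≤ e * L := by
      rw [div_le_iff₀ he] at hL2
      linarith
    calc 1 * (↑N * C / (↑N * L)) = C / L := by field_simp
      _ ≤ e := by
        rw [div_le_iff₀ hLpos]
        linarith

open Classical in
/-- slow bonds near special sites -/
theorem evslow_near {Ω : Type} [MeasurableSpace Ω] (P : Measure Ω) (X : ℕ → Ω → ℝ)
    (hX : IIDE P X) (C e : ℝ) (hC : 0 < C) (he : 0 < e) (N k : ℕ) (hN : 1 ≤ N)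
    (hL : 1 ≤ Real.log N)
    (hL3 : 12 * C / e * Real.log N ^ 930 ≤ (N : ℝ) ^ (1 / 2 : ℝ))
    (h1 : ∀ z, ∫⁻ ω, ENNReal.ofReal (vp (rE (EE X ω)) (mE N (EE X ω)) z z) ∂P ≤
      ENNReal.ofReal C) :
    P {ω | ∃ b ∈ slowB N (rE (EE X ω)), ¬ Sepb N k b} ≤ ENNReal.ofReal e := by
  set L := Real.log N with hLdef
  have hNpos : (0 : ℝ) < N := by exact_mod_cast hN
  have hN1 : (1 : ℝ) ≤ N := by exact_mod_cast hN
  have hLpos : 0 < L := by linarith
  set s : ℝ := (N : ℝ) ^ (1 / 2 : ℝ) with hs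
  have hs1 : 1 ≤ s := Real.one_le_rpow hN1 (by norm_num)
  have hss : s * s = N := by
    rw [hs, ← Real.rpow_add hNpos]
    norm_num
  have hpos : 0 < (N : ℝ) / L ^ 465 := by positivity
  set I : Finset ℕ := (Finset.Ico 1 N).filter (fun b => ¬ Sepb N k b) with hI
  have hun := evslow_un P I
    (fun b => {ω | 1 ≤ b ∧ N / L ^ 465 ≤ vp (rE (EE X ω)) (mE N (EE X ω)) (b - 1) (b - 1)})
    (fun b => 1 ≤ b)
    (fun b ω => vp (rE (EE X ω)) (mE N (EE X ω)) (b - 1) (b - 1)) C (N / L ^ 465) hpos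
    (fun b => evslow_vp_meas hX N (b - 1) (b - 1)) (fun b _ => h1 (b - 1))
    (fun b _ => le_refl _)
  refine le_trans (le_trans (measure_mono ?_) hun) ?_
  · rintro ω ⟨b, hb, hsep⟩
    obtain ⟨g1, g2, g3⟩ := evslow_big hX ω N b hL hb
    simp only [Set.mem_iUnion, exists_prop]
    refine ⟨b, ?_, g1, ?_⟩
    · rw [hI, Finset.mem_filter, Finset.mem_Ico]
      exact ⟨⟨g1, g2⟩, hsep⟩
    · rw [evslow_vpself ω N b g1]
      exact g3
  · apply ENNReal.ofReal_le_ofReal
    have hsub : I ⊆ (((Finset.Ico 1 N).filter (fun b : ℕ => |(b : ℝ) - 0| < s) ∪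
        (Finset.Ico 1 N).filter (fun b : ℕ => |(b : ℝ) - N| < s)) ∪
        (Finset.Ico 1 N).filter (fun b : ℕ => |(b : ℝ) - k| < s)) ∪
        (Finset.Ico 1 N).filter (fun b : ℕ => |(b : ℝ) - (N - k : ℕ)| < s) := by
      intro b hb
      rw [hI, Finset.mem_filter] at hb
      obtain ⟨hb1, hb2⟩ := hb
      simp only [Finset.mem_union, Finset.mem_filter]
      by_contra hcon
      simp only [not_or, not_and, not_lt] at hcon
      obtain ⟨⟨⟨c1, c2⟩, c3⟩, c4⟩ := hcon
      apply hb2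
      have d1 := c1 hb1
      have d2 := c2 hb1
      have hbN : (b : ℝ) ≤ N := by exact_mod_cast (Finset.mem_Ico.1 hb1).2.le
      rw [sub_zero, abs_of_nonneg (by positivity)] at d1
      rw [abs_of_nonpos (by linarith)] at d2
      exact ⟨d1, by linarith, c3 hb1, c4 hb1⟩
    have hc1 : (I.card : ℝ) ≤ 12 * s := by
      have a1 := evslow_cnt 0 s (le_refl 0) hs1 _
        (fun b hb => (Finset.mem_filter.1 hb).2 :
          ∀ b ∈ (Finset.Ico 1 N).filter (fun b : ℕ => |(b : ℝ) - 0| < s), |(b : ℝ) - 0| < s)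
      have a2 := evslow_cnt N s (by positivity) hs1 _
        (fun b hb => (Finset.mem_filter.1 hb).2 :
          ∀ b ∈ (Finset.Ico 1 N).filter (fun b : ℕ => |(b : ℝ) - N| < s), |(b : ℝ) - N| < s)
      have a3 := evslow_cnt k s (by positivity) hs1 _
        (fun b hb => (Finset.mem_filter.1 hb).2 :
          ∀ b ∈ (Finset.Ico 1 N).filter (fun b : ℕ => |(b : ℝ) - k| < s), |(b : ℝ) - k| < s)
      have a4 := evslow_cnt (N - k : ℕ) s (by positivity) hs1 _
        (fun b hb => (Finset.mem_filter.1 hb).2 :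
          ∀ b ∈ (Finset.Ico 1 N).filter (fun b : ℕ => |(b : ℝ) - (N - k : ℕ)| < s),
            |(b : ℝ) - (N - k : ℕ)| < s)
      have hle := le_trans (Finset.card_le_card hsub) (le_trans (Finset.card_union_le _ _)
        (add_le_add_left (le_trans (Finset.card_union_le _ _)
          (add_le_add_left (Finset.card_union_le _ _) _)) _))
      have hle' : (I.card : ℝ) ≤ _ := Nat.cast_le.2 hle
      push_cast at hle'
      linarith
    have hC' : 12 * C * L ^ 930 ≤ e * s := by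
      have := mul_le_mul_of_nonneg_left hL3 he.le
      calc 12 * C * L ^ 930 = e * (12 * C / e * L ^ 930) := by field_simp
        _ ≤ e * s := this
    have hLL : L ^ 465 ≤ L ^ 930 := pow_le_pow_right₀ hL (by norm_num)
    calc (I.card : ℝ) * (C / (N / L ^ 465)) ≤ 12 * s * (C / (N / L ^ 465)) :=
          mul_le_mul_of_nonneg_right hc1 (by positivity)
      _ = 12 * C * L ^ 465 / s := by
          rw [← hss]
          field_simp
      _ ≤ 12 * C * L ^ 930 / s := by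
          apply div_le_div_of_nonneg_right _ (by linarith)
          exact mul_le_mul_of_nonneg_left hLL (by positivity)
      _ ≤ e := by
          rw [div_le_iff₀ (by linarith)]
          exact hC'

/-- pairs of close slow bonds -/
theorem evslow_pair {Ω : Type} [MeasurableSpace Ω] (P : Measure Ω) (X : ℕ → Ω → ℝ)
    (hX : IIDE P X) (C e : ℝ) (hC : 0 < C) (he : 0 < e) (N : ℕ) (hN : 1 ≤ N)
    (hL : 1 ≤ Real.log N)
    (hL3 : 12 * C / e * Real.log N ^ 930 ≤ (N : ℝ) ^ (1 / 2 : ℝ))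
    (hpp : ∀ z y z' y' : ℕ, z ≤ y → y < z' → z' ≤ y' →
      ∫⁻ ω, ENNReal.ofReal (vp (rE (EE X ω)) (mE N (EE X ω)) z y *
      vp (rE (EE X ω)) (mE N (EE X ω)) z' y') ∂P ≤ ENNReal.ofReal C) :
    P {ω | ∃ b ∈ slowB N (rE (EE X ω)), ∃ b' ∈ slowB N (rE (EE X ω)), b < b' ∧
      (b' : ℝ) < b + (N : ℝ) ^ (1 / 2 : ℝ)} ≤ ENNReal.ofReal e := by
  set L := Real.log N with hLdef
  have hNpos : (0 : ℝ) < N := by exact_mod_cast hN
  have hN1 : (1 : ℝ) ≤ N := by exact_mod_cast hN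
  have hLpos : 0 < L := by linarith
  set s : ℝ := (N : ℝ) ^ (1 / 2 : ℝ) with hs
  have hs1 : 1 ≤ s := Real.one_le_rpow hN1 (by norm_num)
  have hss : s * s = N := by
    rw [hs, ← Real.rpow_add hNpos]
    norm_num
  have hpos : 0 < ((N : ℝ) / L ^ 465) * (N / L ^ 465) := by positivity
  set K : ℕ := ⌊s⌋₊ with hK
  have hKs : (K : ℝ) ≤ s := Nat.floor_le (by linarith)
  set I : Finset (ℕ × ℕ) := Finset.range N ×ˢ Finset.range (K + 1) with hI
  have hun := evslow_un P I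
    (fun i => {ω | (1 ≤ i.1 ∧ 1 ≤ i.2) ∧ N / L ^ 465 * (N / L ^ 465) ≤
      vp (rE (EE X ω)) (mE N (EE X ω)) (i.1 - 1) (i.1 - 1) *
      vp (rE (EE X ω)) (mE N (EE X ω)) (i.1 + i.2 - 1) (i.1 + i.2 - 1)})
    (fun i => 1 ≤ i.1 ∧ 1 ≤ i.2)
    (fun i ω => vp (rE (EE X ω)) (mE N (EE X ω)) (i.1 - 1) (i.1 - 1) *
      vp (rE (EE X ω)) (mE N (EE X ω)) (i.1 + i.2 - 1) (i.1 + i.2 - 1)) C
    (N / L ^ 465 * (N / L ^ 465)) hpos
    (fun i => (evslow_vp_meas hX N _ _).mul (evslow_vp_meas hX N _ _))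
    (fun i hi => hpp _ _ _ _ (le_refl _) (by omega) (le_refl _))
    (fun i _ => le_refl _)
  refine le_trans (le_trans (measure_mono ?_) hun) ?_
  · rintro ω ⟨b, hb, b', hb', hlt, hbs⟩
    obtain ⟨g1, g2, g3⟩ := evslow_big hX ω N b hL hb
    obtain ⟨g1', g2', g3'⟩ := evslow_big hX ω N b' hL hb'
    simp only [Set.mem_iUnion, exists_prop]
    refine ⟨(b, b' - b), ?_, ⟨g1, ?_⟩, ?_⟩
    · rw [hI, Finset.mem_product, Finset.mem_range, Finset.mem_range]
      refine ⟨g2, ?_⟩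
      have : b' - b ≤ K := by
        apply Nat.le_floor
        rw [Nat.cast_sub hlt.le]
        linarith
      show b' - b < K + 1
      omega
    · show 1 ≤ b' - b
      omega
    · show _ ≤ vp (rE (EE X ω)) (mE N (EE X ω)) (b - 1) (b - 1) *
        vp (rE (EE X ω)) (mE N (EE X ω)) (b + (b' - b) - 1) (b + (b' - b) - 1)
      have e1 : b + (b' - b) = b' := by omega
      rw [e1, evslow_vpself ω N b g1, evslow_vpself ω N b' g1']
      exact mul_le_mul g3 g3' (by positivity) (le_trans (by positivity) g3)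
  · apply ENNReal.ofReal_le_ofReal
    have hcard : (I.card : ℝ) = N * ((K : ℝ) + 1) := by
      rw [hI]
      simp only [Finset.card_product, Finset.card_range]
      push_cast
      ring
    rw [hcard]
    have hC' : 12 * C * L ^ 930 ≤ e * s := by
      have := mul_le_mul_of_nonneg_left hL3 he.le
      calc 12 * C * L ^ 930 = e * (12 * C / e * L ^ 930) := by field_simp
        _ ≤ e * s := this
    have h0 : 0 ≤ C * L ^ 930 := by positivity
    calc (N : ℝ) * ((K : ℝ) + 1) * (C / (N / L ^ 465 * (N / L ^ 465)))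
        ≤ (N : ℝ) * (2 * s) * (C / (N / L ^ 465 * (N / L ^ 465))) := by
          apply mul_le_mul_of_nonneg_right _ (by positivity)
          apply mul_le_mul_of_nonneg_left _ hNpos.le
          linarith
      _ = 2 * C * L ^ 930 / s := by
          rw [← hss]
          field_simp
      _ ≤ e := by
          rw [div_le_iff₀ (by linarith)]
          linarith

/-- eventual numeric facts -/
theorem evslow_ev (A B : ℝ) : ∃ N1 : ℕ, 1 ≤ N1 ∧ ∀ N : ℕ, N1 ≤ N → 1 ≤ Real.log N ∧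
    A ≤ Real.log N ∧ B * Real.log N ^ 930 ≤ (N : ℝ) ^ (1 / 2 : ℝ) := by
  have htend : Tendsto (fun N : ℕ => Real.log N) atTop atTop :=
    Real.tendsto_log_atTop.comp tendsto_natCast_atTop_atTop
  obtain ⟨N1, hN1⟩ := Filter.eventually_atTop.1 (htend.eventually_ge_atTop (max 1 A))
  have ho := (isLittleO_log_rpow_rpow_atTop (930 : ℝ) (show (0 : ℝ) < 1 / 2 by norm_num)).comp_tendsto
    (tendsto_natCast_atTop_atTop (R := ℝ))
  have hB : (0 : ℝ) < 1 / (|B| + 1) := by positivity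
  obtain ⟨N2, hN2⟩ := Filter.eventually_atTop.1 (ho.bound hB)
  refine ⟨max 1 (max N1 N2), le_max_left _ _, ?_⟩
  intro N hN
  have a1 : N1 ≤ N := le_trans (le_trans (le_max_left _ _) (le_max_right _ _)) hN
  have a2 : N2 ≤ N := le_trans (le_trans (le_max_right _ _) (le_max_right _ _)) hN
  have h1 := hN1 N a1
  have hL1 : 1 ≤ Real.log N := le_trans (le_max_left _ _) h1
  refine ⟨hL1, le_trans (le_max_right _ _) h1, ?_⟩
  have h2 := hN2 N a2
  simp only [Function.comp_apply] at h2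
  have hp : 0 ≤ (N : ℝ) ^ (1 / 2 : ℝ) := by positivity
  rw [Real.norm_of_nonneg hp, Real.norm_of_nonneg (by positivity)] at h2
  have e1 : Real.log (N : ℝ) ^ (930 : ℝ) = Real.log N ^ 930 := by
    rw [← Real.rpow_natCast]
    norm_num
  rw [e1] at h2
  have hBp : 0 < |B| + 1 := by positivity
  have h3 : Real.log N ^ 930 * (|B| + 1) ≤ (N : ℝ) ^ (1 / 2 : ℝ) := by
    calc Real.log N ^ 930 * (|B| + 1)
        ≤ 1 / (|B| + 1) * (N : ℝ) ^ (1 / 2 : ℝ) * (|B| + 1) :=
          mul_le_mul_of_nonneg_right h2 hBp.le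
      _ = (N : ℝ) ^ (1 / 2 : ℝ) := by field_simp
  have h4 : 0 ≤ Real.log N ^ 930 := by positivity
  have h5 : B * Real.log N ^ 930 ≤ (|B| + 1) * Real.log N ^ 930 :=
    mul_le_mul_of_nonneg_right (by linarith [le_abs_self B]) h4
  linarith

theorem evslow_mul (N L u v : ℝ) (hN : 0 ≤ N) (hL : 0 < L) (hu : N / L ^ 465 ≤ u)
    (hv : L ^ 960 < v) : N * L ^ 495 ≤ u * v := by
  have h0 : 0 ≤ N / L ^ 465 := by positivity
  calc N * L ^ 495 = N / L ^ 465 * L ^ 960 := by
        field_simp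
    _ ≤ u * v := mul_le_mul hu hv.le (by positivity) (le_trans h0 hu)

theorem st_EVSLOW (hMOMM : ST_MOMM) : ST_EVSLOW := by
  intro Ω _ P X θ hX h0 h1 hM c ηp _ hη
  obtain ⟨C, θ', N0, hC, -, -, hall⟩ := hMOMM Ω P X θ hX h0 h1 hM
  have he : 0 < ηp / 7 := by positivity
  obtain ⟨N1, hN1, hev⟩ := evslow_ev (49 * C / (ηp / 7)) (12 * C / (ηp / 7))
  refine ⟨max N0 N1, ?_⟩
  intro N k hN _ _
  have hNN0 : N0 ≤ N := le_trans (le_max_left _ _) hN
  have hNN1 : N1 ≤ N := le_trans (le_max_right _ _) hN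
  obtain ⟨hL, hL2, hL3⟩ := hev N hNN1
  have hNp : 1 ≤ N := le_trans hN1 hNN1
  obtain ⟨hsg, hpp, hhh, -⟩ := hall N hNN0
  have hNr : (0 : ℝ) ≤ N := by positivity
  have hLpos : 0 < Real.log N := by linarith
  have hself : ∀ z, ∫⁻ ω, ENNReal.ofReal (vp (rE (EE X ω)) (mE N (EE X ω)) z z) ∂P ≤
      ENNReal.ofReal C := by
    intro z
    have := (hsg z z (le_refl z)).2.1
    rw [Nat.sub_self, pow_zero, mul_one] at this
    exact this
  have b1 := evslow_card P X hX C (ηp / 7) hC he N hNp hL hL2 hself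
  have b2 := evslow_near P X hX C (ηp / 7) hC he N k hNp hL hL3 hself
  have b3 := evslow_pair P X hX C (ηp / 7) hC he N hNp hL hL3 hpp
  have b4 := evslow_win P (fun b z y ω => vp (rE (EE X ω)) (mE N (EE X ω)) (b - 1) (b - 1) *
      vp (rE (EE X ω)) (mE N (EE X ω)) z y)
    (fun b z y => 1 ≤ b ∧ b < N ∧ b ≤ z ∧ z ≤ y ∧ (y : ℝ) ≤ b + 3 * Real.log N ^ 241)
    C (ηp / 7) hC he N hNp hL hL2
    (fun b z y => (evslow_vp_meas hX N _ _).mul (evslow_vp_meas hX N z y))
    (by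
      rintro b z y ⟨q0, q1, q2, q3, q4⟩
      have r2 : (b : ℝ) ≤ z := by exact_mod_cast q2
      have r3 : (z : ℝ) ≤ y := by exact_mod_cast q3
      have r4 : 0 ≤ 3 * Real.log N ^ 241 := by positivity
      exact ⟨q1, by linarith, by linarith, by linarith, q4⟩)
    (by
      rintro b z y ⟨q0, q1, q2, q3, q4⟩
      exact hpp _ _ _ _ (le_refl _) (by omega) q3)
  have b5 := evslow_win P (fun b z y ω => vh (rE (EE X ω)) (mE N (EE X ω)) b b *
      vh (rE (EE X ω)) (mE N (EE X ω)) z y)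
    (fun b z y => 1 ≤ b ∧ b < N ∧ b < z ∧ z ≤ y ∧ (y : ℝ) ≤ b + 3 * Real.log N ^ 241)
    C (ηp / 7) hC he N hNp hL hL2
    (fun b z y => (evslow_vh_meas hX N _ _).mul (evslow_vh_meas hX N z y))
    (by
      rintro b z y ⟨q0, q1, q2, q3, q4⟩
      have r2 : (b : ℝ) < z := by exact_mod_cast q2
      have r3 : (z : ℝ) ≤ y := by exact_mod_cast q3
      have r4 : 0 ≤ 3 * Real.log N ^ 241 := by positivity
      exact ⟨q1, by linarith, by linarith, by linarith, q4⟩)
    (by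
      rintro b z y ⟨q0, q1, q2, q3, q4⟩
      exact hhh _ _ _ _ q0 (le_refl _) q2 q3)
  have b6 := evslow_win P (fun b z y ω => vp (rE (EE X ω)) (mE N (EE X ω)) z y *
      vp (rE (EE X ω)) (mE N (EE X ω)) (b - 1) (b - 1))
    (fun b z y => b < N ∧ (b : ℝ) ≤ z + 3 * Real.log N ^ 241 ∧ z ≤ y ∧ y + 1 < b)
    C (ηp / 7) hC he N hNp hL hL2
    (fun b z y => (evslow_vp_meas hX N z y).mul (evslow_vp_meas hX N _ _))
    (by
      rintro b z y ⟨q1, q2, q3, q4⟩
      have r2 : (y : ℝ) + 1 < b := by exact_mod_cast q4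
      have r3 : (z : ℝ) ≤ y := by exact_mod_cast q3
      have r4 : 0 ≤ 3 * Real.log N ^ 241 := by positivity
      exact ⟨q1, q2, by linarith, by linarith, by linarith⟩)
    (by
      rintro b z y ⟨q1, q2, q3, q4⟩
      exact hpp _ _ _ _ q3 (by omega) (le_refl _))
  have b7 := evslow_win P (fun b z y ω => vh (rE (EE X ω)) (mE N (EE X ω)) z y *
      vh (rE (EE X ω)) (mE N (EE X ω)) b b)
    (fun b z y => b < N ∧ (b : ℝ) ≤ z + 3 * Real.log N ^ 241 ∧ 1 ≤ z ∧ z ≤ y ∧ y < b)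
    C (ηp / 7) hC he N hNp hL hL2
    (fun b z y => (evslow_vh_meas hX N z y).mul (evslow_vh_meas hX N _ _))
    (by
      rintro b z y ⟨q1, q2, q0, q3, q4⟩
      have r2 : (y : ℝ) < b := by exact_mod_cast q4
      have r3 : (z : ℝ) ≤ y := by exact_mod_cast q3
      have r4 : 0 ≤ 3 * Real.log N ^ 241 := by positivity
      exact ⟨q1, q2, by linarith, by linarith, by linarith⟩)
    (by
      rintro b z y ⟨q1, q2, q0, q3, q4⟩
      exact hhh _ _ _ _ q0 q3 q4 (le_refl _))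
  have hsum : ENNReal.ofReal ηp = ENNReal.ofReal (ηp / 7) + (ENNReal.ofReal (ηp / 7) +
      (ENNReal.ofReal (ηp / 7) + (ENNReal.ofReal (ηp / 7) + (ENNReal.ofReal (ηp / 7) +
      (ENNReal.ofReal (ηp / 7) + ENNReal.ofReal (ηp / 7)))))) := by
    have h7 := he.le
    rw [← ENNReal.ofReal_add h7 h7, ← ENNReal.ofReal_add h7 (by positivity),
      ← ENNReal.ofReal_add h7 (by positivity), ← ENNReal.ofReal_add h7 (by positivity),
      ← ENNReal.ofReal_add h7 (by positivity), ← ENNReal.ofReal_add h7 (by positivity)]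
    congr 1
    ring
  rw [hsum]
  refine le_trans (measure_mono ?_) (le_trans (measure_union_le _ _) (add_le_add b1
    (le_trans (measure_union_le _ _) (add_le_add b2
    (le_trans (measure_union_le _ _) (add_le_add b3
    (le_trans (measure_union_le _ _) (add_le_add b4
    (le_trans (measure_union_le _ _) (add_le_add b5
    (le_trans (measure_union_le _ _) (add_le_add b6 b7))))))))))))
  intro ω hω
  by_contra hcon
  simp only [Set.mem_union, not_or] at hcon
  obtain ⟨c1, c2, c3, c4, c5, c6, c7⟩ := hcon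
  apply hω
  refine ⟨not_lt.1 c1, ?_, ?_⟩
  · intro b hb
    obtain ⟨g1, g2, g3⟩ := evslow_big hX ω N b hL hb
    refine ⟨?_, ?_, ?_, ?_, ?_⟩
    · by_contra hs
      exact c2 ⟨b, hb, hs⟩
    · intro z y h1 h2 h3
      by_contra hv
      apply c4
      refine ⟨b, z, y, ⟨g1, g2, h1, h2, h3⟩, ?_⟩
      show (N : ℝ) * Real.log N ^ 495 ≤ vp (rE (EE X ω)) (mE N (EE X ω)) (b - 1) (b - 1) *
        vp (rE (EE X ω)) (mE N (EE X ω)) z y
      rw [evslow_vpself ω N b g1]
      exact evslow_mul _ _ _ _ hNr hLpos g3 (not_le.1 hv)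
    · intro z y h1 h2 h3
      by_contra hv
      apply c5
      refine ⟨b, z, y, ⟨g1, g2, h1, h2, h3⟩, ?_⟩
      show (N : ℝ) * Real.log N ^ 495 ≤ vh (rE (EE X ω)) (mE N (EE X ω)) b b *
        vh (rE (EE X ω)) (mE N (EE X ω)) z y
      rw [evslow_vhself ω N b]
      exact evslow_mul _ _ _ _ hNr hLpos g3 (not_le.1 hv)
    · intro z y h1 h2 h3
      by_contra hv
      apply c6
      refine ⟨b, z, y, ⟨g2, h1, h2, h3⟩, ?_⟩
      show (N : ℝ) * Real.log N ^ 495 ≤ vp (rE (EE X ω)) (mE N (EE X ω)) z y *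
        vp (rE (EE X ω)) (mE N (EE X ω)) (b - 1) (b - 1)
      rw [evslow_vpself ω N b g1, mul_comm (vp (rE (EE X ω)) (mE N (EE X ω)) z y)]
      exact evslow_mul _ _ _ _ hNr hLpos g3 (not_le.1 hv)
    · intro z y h1 h2 h3 h4
      by_contra hv
      apply c7
      refine ⟨b, z, y, ⟨g2, h1, h2, h3, h4⟩, ?_⟩
      show (N : ℝ) * Real.log N ^ 495 ≤ vh (rE (EE X ω)) (mE N (EE X ω)) z y *
        vh (rE (EE X ω)) (mE N (EE X ω)) b b
      rw [evslow_vhself ω N b, mul_comm (vh (rE (EE X ω)) (mE N (EE X ω)) z y)]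
      exact evslow_mul _ _ _ _ hNr hLpos g3 (not_le.1 hv)
  · intro b hb b' hb' hlt
    by_contra hs
    exact c3 ⟨b, hb, b', hb', hlt, not_le.1 hs⟩

end Pool.Agent.Helper98.EX
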